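import Mathlib
import Pool.Agent.H302R2.Deg2Main

/-!
# Heilbronn functions of solvable subgroups

A class function on a finite group whose multiplicities at the linear characters of all subgroups
are integers, and are nonnegative for the solvable subgroups.
-/

set_option autoImplicit false

namespace Pool.Agent.R362.SH

open Pool.Agent.H302R2 MulAction

universe u

/-- integral multiplicities at the linear characters of all subgroups, nonnegative for solvable
subgroups -/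
structure IsSolvHeilbronn {G : Type u} [Group G] (θ : G → ℂ) : Prop where
  conj : ∀ g h : G, θ (h * g * h⁻¹) = θ g
  int : ∀ (H : Subgroup G) (χ : H →* ℂˣ), ∃ n : ℤ,
    ∑ᶠ h : H, θ h * (((χ h)⁻¹ : ℂˣ) : ℂ) = (n : ℂ) * (Nat.card H : ℂ)
  mult : ∀ (H : Subgroup G), Group.IsSolvable H → ∀ χ : H →* ℂˣ, ∃ n : ℕ,
    ∑ᶠ h : H, θ h * (((χ h)⁻¹ : ℂˣ) : ℂ) = (n : ℂ) * (Nat.card H : ℂ)

variable {G : Type u} [Group G] [Finite G] {θ : G → ℂ}

/-- multiplicities along homomorphisms from multiplicities on the image -/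
lemma mult_hom_of (P : ℂ → Prop) (h0 : P 0) {E : Type*} [Group E] [Fintype E]
    (φ : E →* G) (hP : ∀ χ : φ.range →* ℂˣ, ∃ n : ℂ, P n ∧
      ∑ᶠ h : φ.range, θ h * (((χ h)⁻¹ : ℂˣ) : ℂ) = n * (Nat.card φ.range : ℂ))
    (χ : E →* ℂˣ) :
    ∃ n : ℂ, P n ∧ ∑ e : E, θ (φ e) * (((χ e)⁻¹ : ℂˣ) : ℂ) = n * (Nat.card E : ℂ) := by
  classical
  by_cases hker : ∀ k ∈ φ.ker, χ k = 1
  · have : Fintype φ.range := Fintype.ofFinite _
    let χ' : φ.range →* ℂˣ :=
      (QuotientGroup.lift φ.ker χ hker).comp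
        (QuotientGroup.quotientKerEquivRange φ).symm.toMonoidHom
    have hχ' : ∀ e : E, χ' (φ.rangeRestrict e) = χ e := by
      intro e
      have : (QuotientGroup.quotientKerEquivRange φ).symm (φ.rangeRestrict e)
          = (QuotientGroup.mk e : E ⧸ φ.ker) := by
        rw [MulEquiv.symm_apply_eq]; rfl
      simp only [χ', MonoidHom.coe_comp, MulEquiv.coe_toMonoidHom, Function.comp_apply, this]
      rfl
    obtain ⟨n, hn0, hn⟩ := hP χ'
    refine ⟨n, hn0, ?_⟩
    rw [finsum_eq_sum_of_fintype] at hn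
    have h1 := sum_comp_surj φ.rangeRestrict φ.rangeRestrict_surjective
      (fun h : φ.range => θ h * (((χ' h)⁻¹ : ℂˣ) : ℂ))
    simp only [hχ', MonoidHom.coe_rangeRestrict] at h1
    rw [h1, hn, MonoidHom.ker_rangeRestrict]
    have h2 : Nat.card E = Nat.card φ.ker * Nat.card φ.range := by
      rw [← Nat.card_congr (QuotientGroup.quotientKerEquivRange φ).toEquiv, mul_comm]
      exact Subgroup.card_eq_card_quotient_mul_card_subgroup _
    rw [h2]; push_cast; ring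
  · push Not at hker
    obtain ⟨k, hk, hχk⟩ := hker
    refine ⟨0, h0, ?_⟩
    have h1 : ∑ e : E, θ (φ e) * (((χ e)⁻¹ : ℂˣ) : ℂ)
        = ∑ e : E, θ (φ (e * k)) * (((χ (e * k))⁻¹ : ℂˣ) : ℂ) :=
      (Equiv.sum_comp (Equiv.mulRight k)
        (fun e => θ (φ e) * (((χ e)⁻¹ : ℂˣ) : ℂ))).symm
    have h2 : ∑ e : E, θ (φ (e * k)) * (((χ (e * k))⁻¹ : ℂˣ) : ℂ)
        = (((χ k)⁻¹ : ℂˣ) : ℂ) * ∑ e : E, θ (φ e) * (((χ e)⁻¹ : ℂˣ) : ℂ) := by
      rw [Finset.mul_sum]
      refine Finset.sum_congr rfl fun e _ => ?_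
      rw [map_mul, map_mul, MonoidHom.mem_ker.mp hk, mul_one, mul_inv_rev]
      push_cast; ring
    have h3 : (((χ k)⁻¹ : ℂˣ) : ℂ) ≠ 1 := by
      intro h
      apply hχk
      rw [← inv_eq_one, ← Units.val_eq_one]; exact h
    have h4 : (1 - (((χ k)⁻¹ : ℂˣ) : ℂ)) * ∑ e : E, θ (φ e) * (((χ e)⁻¹ : ℂˣ) : ℂ) = 0 := by
      rw [sub_mul, one_mul, ← h2, ← h1, sub_self]
    rcases mul_eq_zero.mp h4 with h5 | h5
    · exact absurd (sub_eq_zero.mp h5).symm h3
    · rw [h5]; simp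

lemma IsSolvHeilbronn.int_hom (hθ : IsSolvHeilbronn θ) {E : Type*} [Group E] [Fintype E]
    (φ : E →* G) (χ : E →* ℂˣ) :
    ∃ n : ℤ, ∑ e : E, θ (φ e) * (((χ e)⁻¹ : ℂˣ) : ℂ) = (n : ℂ) * (Nat.card E : ℂ) := by
  obtain ⟨n, ⟨m, rfl⟩, h⟩ := mult_hom_of (fun z => ∃ m : ℤ, z = m) ⟨0, by simp⟩ φ
    (fun χ => by
      obtain ⟨n, hn⟩ := hθ.int φ.range χ
      exact ⟨n, ⟨n, rfl⟩, hn⟩) χ
  exact ⟨m, h⟩

lemma IsSolvHeilbronn.mult_hom (hθ : IsSolvHeilbronn θ) {E : Type*} [Group E] [Fintype E]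
    [Group.IsSolvable E] (φ : E →* G) (χ : E →* ℂˣ) :
    ∃ n : ℕ, ∑ e : E, θ (φ e) * (((χ e)⁻¹ : ℂˣ) : ℂ) = (n : ℂ) * (Nat.card E : ℂ) := by
  have hs : Group.IsSolvable φ.range :=
    solvable_of_surjective φ.rangeRestrict_surjective
  obtain ⟨n, ⟨m, rfl⟩, h⟩ := mult_hom_of (fun z => ∃ m : ℕ, z = m) ⟨0, by simp⟩ φ
    (fun χ => by
      obtain ⟨n, hn⟩ := hθ.mult φ.range hs χ
      exact ⟨n, ⟨n, rfl⟩, hn⟩) χ
  exact ⟨m, h⟩

lemma IsSolvHeilbronn.comp (hθ : IsSolvHeilbronn θ) {E : Type u} [Group E] [Finite E]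
    (φ : E →* G) : IsSolvHeilbronn (fun e => θ (φ e)) where
  conj g h := by simp only [map_mul, map_inv]; exact hθ.conj _ _
  int H χ := by
    have : Fintype H := Fintype.ofFinite _
    obtain ⟨n, hn⟩ := hθ.int_hom (φ.comp H.subtype) χ
    exact ⟨n, by rw [finsum_eq_sum_of_fintype]; exact hn⟩
  mult H hs χ := by
    have : Fintype H := Fintype.ofFinite _
    obtain ⟨n, hn⟩ := hθ.mult_hom (φ.comp H.subtype) χ
    exact ⟨n, by rw [finsum_eq_sum_of_fintype]; exact hn⟩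

/-- pulling back to a solvable group gives a Heilbronn function -/
lemma IsSolvHeilbronn.heil (hθ : IsSolvHeilbronn θ) {E : Type u} [Group E] [Finite E]
    [Group.IsSolvable E] (φ : E →* G) : IsHeilbronn (fun e => θ (φ e)) where
  conj g h := by simp only [map_mul, map_inv]; exact hθ.conj _ _
  mult H χ := by
    have : Fintype H := Fintype.ofFinite _
    obtain ⟨n, hn⟩ := hθ.mult_hom (φ.comp H.subtype) χ
    exact ⟨n, by rw [finsum_eq_sum_of_fintype]; exact hn⟩

lemma IsSolvHeilbronn.twist (hθ : IsSolvHeilbronn θ) (ρ : G →* ℂˣ) :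
    IsSolvHeilbronn (fun g => θ g * (((ρ g)⁻¹ : ℂˣ) : ℂ)) where
  conj g h := by
    rw [hθ.conj, map_mul, map_mul, map_inv, mul_right_comm, mul_inv_cancel, one_mul]
  int H χ := by
    obtain ⟨n, hn⟩ := hθ.int H (χ * ρ.comp H.subtype)
    refine ⟨n, ?_⟩
    rw [← hn]
    refine finsum_congr fun h => ?_
    rw [MonoidHom.mul_apply, mul_inv, MonoidHom.comp_apply, Subgroup.coe_subtype]
    push_cast
    ring
  mult H hs χ := by
    obtain ⟨n, hn⟩ := hθ.mult H hs (χ * ρ.comp H.subtype)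
    refine ⟨n, ?_⟩
    rw [← hn]
    refine finsum_congr fun h => ?_
    rw [MonoidHom.mul_apply, mul_inv, MonoidHom.comp_apply, Subgroup.coe_subtype]
    push_cast
    ring

/-- the subgroup generated by two commuting elements -/
lemma solv_closure {x y : G} (hxy : x * y = y * x) :
    Group.IsSolvable (Subgroup.closure ({x, y} : Set G)) :=
  Group.isSolvable_of_comm (closure_pair_comm hxy)

lemma IsSolvHeilbronn.norm_le (hθ : IsSolvHeilbronn θ) (g : G) : ‖θ g‖ ≤ (θ 1).re := by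
  have hs := solv_closure (x := g) (y := g) rfl
  have h := (hθ.heil (Subgroup.closure ({g, g} : Set G)).subtype).norm_le
    ⟨g, Subgroup.subset_closure (by simp)⟩
  simpa using h

lemma IsSolvHeilbronn.dd_conj (hθ : IsSolvHeilbronn θ) (g h : G) :
    dd θ (h * g * h⁻¹) = dd θ g := by
  unfold dd
  rw [hθ.conj, show (h * g * h⁻¹) ^ 2 = h * g ^ 2 * h⁻¹ by rw [sq, sq]; group, hθ.conj]

lemma IsSolvHeilbronn.dd_mul (hθ : IsSolvHeilbronn θ) (h1 : θ 1 = 2) {x y : G}
    (hxy : x * y = y * x) : dd θ (x * y) = dd θ x * dd θ y := by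
  have hs := solv_closure hxy
  have h := (hθ.heil (Subgroup.closure ({x, y} : Set G)).subtype).dd_mul (by simpa using h1)
    (x := ⟨x, Subgroup.subset_closure (by simp)⟩) (y := ⟨y, Subgroup.subset_closure (by simp)⟩)
    (Subtype.ext hxy)
  exact h

lemma IsSolvHeilbronn.dd_norm (hθ : IsSolvHeilbronn θ) (h1 : θ 1 = 2) (x : G) :
    ‖dd θ x‖ = 1 := by
  have hs := solv_closure (x := x) (y := x) rfl
  have h := (hθ.heil (Subgroup.closure ({x, x} : Set G)).subtype).dd_norm (by simpa using h1)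
    ⟨x, Subgroup.subset_closure (by simp)⟩
  exact h

lemma IsSolvHeilbronn.two_eig (hθ : IsSolvHeilbronn θ) (h1 : θ 1 = 2) (x : G) :
    ∃ a b : ℂ, ‖a‖ = 1 ∧ ‖b‖ = 1 ∧ dd θ x = a * b ∧ θ x = a + b ∧
      ∀ i : ℤ, θ (x ^ i) = a ^ i + b ^ i := by
  have hs := solv_closure (x := x) (y := x) rfl
  have h := (hθ.heil (Subgroup.closure ({x, x} : Set G)).subtype).two_eig (by simpa using h1)
    ⟨x, Subgroup.subset_closure (by simp)⟩
  exact h

lemma IsSolvHeilbronn.isIntegral_two (hθ : IsSolvHeilbronn θ) (h1 : θ 1 = 2) (x : G) :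
    IsIntegral ℤ (θ x) := by
  have hs := solv_closure (x := x) (y := x) rfl
  have h := (hθ.heil (Subgroup.closure ({x, x} : Set G)).subtype).isIntegral_two
    (by simpa using h1) ⟨x, Subgroup.subset_closure (by simp)⟩
  exact h

/-- The determinant is a linear character. -/
theorem IsSolvHeilbronn.exists_det (hθ : IsSolvHeilbronn θ) (h1 : θ 1 = 2) :
    ∃ D : G →* ℂˣ, ∀ g, ((D g : ℂˣ) : ℂ) = dd θ g := by
  have hne : ∀ g, dd θ g ≠ 0 := fun g => by
    rw [← norm_ne_zero_iff, hθ.dd_norm h1]; norm_num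
  let f : G → ℂˣ := fun g => Units.mk0 (dd θ g) (hne g)
  have hf : ∀ g h, f (g * h) = f g * f h := by
    apply mul_of_pgroups
    · intro g h
      apply Units.ext
      exact hθ.dd_conj g h
    · intro g n
      induction n with
      | zero => apply Units.ext; simp [f, dd_one h1]
      | succ n ih =>
        rw [pow_succ, pow_succ, ← ih]
        apply Units.ext
        exact hθ.dd_mul h1 ((Commute.refl g).pow_left n).eq
    · intro p hp P hP x hx y hy
      have : Fact p.Prime := ⟨hp⟩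
      have : Group.IsNilpotent P := hP.isNilpotent
      apply Units.ext
      exact two_pgroup (p := p) (Nat.card P) P rfl hP (fun x => θ x) (hθ.heil P.subtype)
        h1 ⟨x, hx⟩ ⟨y, hy⟩
  refine ⟨{ toFun := f, map_one' := ?_, map_mul' := hf }, fun g => rfl⟩
  apply Units.ext
  exact dd_one h1

end Pool.Agent.R362.SH
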