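import Mathlib
import Pool.Agent.R362.SH.Par

/-!
# Functions of degree two with a nontrivial determinant
-/

set_option autoImplicit false
set_option linter.unusedSectionVars false

namespace Pool.Agent.R362.SH

open Pool.Agent.H302R2 Finset

universe u

section bessel

variable {G : Type u} [Group G] [Fintype G]

lemma star_char (D : G →* ℂˣ) (g : G) :
    (starRingEnd ℂ) ((D g : ℂˣ) : ℂ) = (((D g)⁻¹ : ℂˣ) : ℂ) := by
  have h := norm_char D g
  rw [Units.val_inv_eq_inv_val, Complex.inv_eq_conj h]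

lemma sum_pow_zero (D : G →* ℂˣ) {m : ℕ} (hm : orderOf D = m) {i j : ℕ} (hi : i < m)
    (hj : j < m) : ∑ g : G, ((D g : ℂˣ) : ℂ) ^ i * (((D g)⁻¹ : ℂˣ) : ℂ) ^ j
      = if i = j then (Fintype.card G : ℂ) else 0 := by
  by_cases hij : i = j
  · subst hij
    rw [if_pos rfl]
    have : ∀ g : G, ((D g : ℂˣ) : ℂ) ^ i * (((D g)⁻¹ : ℂˣ) : ℂ) ^ i = 1 := by
      intro g
      rw [← mul_pow, Units.mul_inv, one_pow]
    rw [Finset.sum_congr rfl fun g _ => this g]
    simp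
  · rw [if_neg hij]
    let ψ : G →* ℂˣ := D ^ i * (D ^ j)⁻¹
    have hψ : ψ ≠ 1 := by
      intro h
      have h2 : D ^ i = D ^ j := by
        exact mul_inv_eq_one.mp h
      apply hij
      have h4 := pow_injOn_Iio_orderOf (x := D)
      rw [hm] at h4
      exact h4 (Set.mem_Iio.mpr hi) (Set.mem_Iio.mpr hj) h2
    have h1 : ∑ g : G, ((ψ g : ℂˣ) : ℂ) = 0 := by
      refine sum_hom_units_eq_zero ((Units.coeHom ℂ).comp ψ) ?_
      intro h2
      apply hψ
      ext g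
      exact congrArg (fun f : G →* ℂ => f g) h2
    rw [← h1]
    refine Finset.sum_congr rfl fun g _ => ?_
    simp [ψ]

lemma bessel_pow (D : G →* ℂˣ) {m : ℕ} (hm : orderOf D = m) (θ : G → ℂ) (c : ℕ → ℤ)
    (hc : ∀ j < m, ∑ g : G, θ g * (((D g)⁻¹ : ℂˣ) : ℂ) ^ j = (c j : ℂ) * Fintype.card G) :
    ∑ g : G, ‖θ g - ∑ j ∈ range m, (c j : ℂ) * ((D g : ℂˣ) : ℂ) ^ j‖ ^ 2
      = ∑ g : G, ‖θ g‖ ^ 2 - (∑ j ∈ range m, (c j : ℝ) ^ 2) * Fintype.card G := by
  set u : G → ℂ := fun g => ∑ j ∈ range m, (c j : ℂ) * ((D g : ℂˣ) : ℂ) ^ j with hu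
  have hconj : ∀ g, (starRingEnd ℂ) (u g) = ∑ j ∈ range m, (c j : ℂ) * (((D g)⁻¹ : ℂˣ) : ℂ) ^ j := by
    intro g
    simp only [hu]
    rw [map_sum]
    refine Finset.sum_congr rfl fun j _ => ?_
    rw [map_mul, map_pow, star_char]
    congr 1
    exact map_intCast (starRingEnd ℂ) _
  have hpair : ∀ f : G → ℂ, (∀ j < m, ∑ g : G, f g * (((D g)⁻¹ : ℂˣ) : ℂ) ^ j
      = (c j : ℂ) * Fintype.card G) →
      ∑ g : G, f g * (starRingEnd ℂ) (u g) = (∑ j ∈ range m, (c j : ℂ) ^ 2) * Fintype.card G := by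
    intro f hf
    simp_rw [hconj, Finset.mul_sum]
    rw [Finset.sum_comm, Finset.sum_mul]
    refine Finset.sum_congr rfl fun j hj => ?_
    have h1 := hf j (Finset.mem_range.mp hj)
    have h2 : ∀ g, f g * ((c j : ℂ) * (((D g)⁻¹ : ℂˣ) : ℂ) ^ j)
        = (c j : ℂ) * (f g * (((D g)⁻¹ : ℂˣ) : ℂ) ^ j) := fun g => by ring
    rw [Finset.sum_congr rfl fun g _ => h2 g, ← Finset.mul_sum, h1]
    ring
  have huc : ∀ j < m, ∑ g : G, u g * (((D g)⁻¹ : ℂˣ) : ℂ) ^ j = (c j : ℂ) * Fintype.card G := by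
    intro j hj
    simp only [hu, Finset.sum_mul]
    rw [Finset.sum_comm]
    have h1 : ∀ i ∈ range m, ∑ g : G, (c i : ℂ) * ((D g : ℂˣ) : ℂ) ^ i * (((D g)⁻¹ : ℂˣ) : ℂ) ^ j
        = if i = j then (c i : ℂ) * Fintype.card G else 0 := by
      intro i hi
      have h2 := sum_pow_zero D hm (Finset.mem_range.mp hi) hj
      simp_rw [mul_assoc]
      rw [← Finset.mul_sum, h2]
      split_ifs <;> simp
    rw [Finset.sum_congr rfl h1, Finset.sum_ite_eq']
    rw [if_pos (Finset.mem_range.mpr hj)]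
  have h1 := hpair θ hc
  have h2 := hpair u huc
  have e : ∀ g, ‖θ g - u g‖ ^ 2 = ‖θ g‖ ^ 2 - 2 * (θ g * (starRingEnd ℂ) (u g)).re
      + (u g * (starRingEnd ℂ) (u g)).re := by
    intro g
    have h3 : (u g * (starRingEnd ℂ) (u g)).re = ‖u g‖ ^ 2 := by
      rw [Complex.mul_conj, Complex.ofReal_re, Complex.normSq_eq_norm_sq]
    rw [h3, ← Complex.normSq_eq_norm_sq, ← Complex.normSq_eq_norm_sq,
      ← Complex.normSq_eq_norm_sq, Complex.normSq_sub]
    ring
  rw [Finset.sum_congr rfl fun g _ => e g, Finset.sum_add_distrib, Finset.sum_sub_distrib,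
    ← Finset.mul_sum, ← Complex.re_sum, ← Complex.re_sum, h1, h2]
  have h4 : ((∑ j ∈ range m, (c j : ℂ) ^ 2) * (Fintype.card G : ℂ)).re
      = (∑ j ∈ range m, (c j : ℝ) ^ 2) * Fintype.card G := by
    have : ((∑ j ∈ range m, (c j : ℂ) ^ 2) * (Fintype.card G : ℂ))
        = (((∑ j ∈ range m, (c j : ℝ) ^ 2) * (Fintype.card G : ℝ) : ℝ) : ℂ) := by push_cast; rfl
    rw [this, Complex.ofReal_re]
  rw [h4]
  ring

end bessel

variable {G : Type u} [Group G] [Finite G] {θ : G → ℂ}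

/-- A degree two function whose determinant is not trivial: the multiplicity of the trivial
character is nonnegative if this holds for the kernel of the determinant. -/
theorem IsSolvHeilbronn.nonneg_of_det (hθ : IsSolvHeilbronn θ) (h1 : θ 1 = 2) (D : G →* ℂˣ)
    (hD : ∀ g, ((D g : ℂˣ) : ℂ) = dd θ g) (hD1 : D ≠ 1)
    (hker : ∃ t : ℕ, ∑ᶠ g : D.ker, θ g = (t : ℂ) * Nat.card D.ker) {n : ℤ}
    (hn : ∑ᶠ g : G, θ g = n * Nat.card G) : 0 ≤ n := by
  classical
  have : Fintype G := Fintype.ofFinite _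
  by_contra hneg
  push Not at hneg
  have hcG : Nat.card G = Fintype.card G := Nat.card_eq_fintype_card
  rw [hcG, finsum_eq_sum_of_fintype] at hn
  have hGpos : (0 : ℝ) < Fintype.card G := by exact_mod_cast Fintype.card_pos
  have hG0 : (Fintype.card G : ℂ) ≠ 0 := by exact_mod_cast Fintype.card_pos.ne'
  -- the order of `D`
  set m := orderOf D with hm
  have hDfin : D ^ Nat.card G = 1 := by
    ext g
    rw [MonoidHom.pow_apply, ← map_pow, pow_card_eq_one', map_one, MonoidHom.one_apply]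
  have hm0 : 0 < m := orderOf_pos_iff.mpr (isOfFinOrder_iff_pow_eq_one.mpr
    ⟨Nat.card G, Nat.card_pos, hDfin⟩)
  have hm1 : m ≠ 1 := by
    intro h
    exact hD1 (orderOf_eq_one_iff.mp h)
  have hm2 : 2 ≤ m := by omega
  -- the multiplicities
  have hex : ∀ j : ℕ, ∃ c : ℤ, ∑ g : G, θ g * (((D g)⁻¹ : ℂˣ) : ℂ) ^ j = (c : ℂ) * Fintype.card G := by
    intro j
    obtain ⟨c, hc⟩ := hθ.int_hom (MonoidHom.id G) (D ^ j)
    refine ⟨c, ?_⟩
    rw [← hcG, ← hc]
    refine Finset.sum_congr rfl fun g _ => ?_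
    simp
  choose c hc using hex
  have hc0 : c 0 = n := by
    have h2 := hc 0
    simp only [pow_zero, mul_one] at h2
    rw [h2] at hn
    have h3 := mul_right_cancel₀ hG0 hn
    exact_mod_cast h3
  have hinv : ∀ g, θ g⁻¹ = θ g * (((D g)⁻¹ : ℂˣ) : ℂ) := by
    intro g
    obtain ⟨a, b, ha, hb, hab, hs, hz⟩ := hθ.two_eig h1 g
    have h2 := hz (-1)
    rw [zpow_neg_one, zpow_neg_one, zpow_neg_one] at h2
    have ha0 : a ≠ 0 := by rw [← norm_ne_zero_iff, ha]; norm_num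
    have hb0 : b ≠ 0 := by rw [← norm_ne_zero_iff, hb]; norm_num
    rw [h2, hs, Units.val_inv_eq_inv_val, hD g, hab]
    field_simp
    ring
  have hc1 : c 1 = n := by
    have h2 := hc 1
    simp only [pow_one] at h2
    rw [Finset.sum_congr rfl fun g _ => (hinv g).symm] at h2
    have h4 : ∑ g : G, θ g⁻¹ = ∑ g : G, θ g := Equiv.sum_comp (Equiv.inv G) θ
    rw [h4, hn] at h2
    have h3 := mul_right_cancel₀ hG0 h2
    exact_mod_cast h3.symm
  -- the sum of the multiplicities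
  have hsum : (0 : ℤ) ≤ ∑ j ∈ range m, c j := by
    obtain ⟨t, ht⟩ := hker
    have h2 : ∑ j ∈ range m, (c j : ℂ) * Fintype.card G = (m * t * Nat.card D.ker : ℂ) := by
      rw [Finset.sum_congr rfl fun j _ => (hc j).symm, Finset.sum_comm]
      have h3 : ∀ g : G, ∑ j ∈ range m, θ g * (((D g)⁻¹ : ℂˣ) : ℂ) ^ j
          = if D g = 1 then (m : ℂ) * θ g else 0 := by
        intro g
        rw [← Finset.mul_sum]
        by_cases hg : D g = 1
        · rw [if_pos hg, hg]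
          simp [mul_comm]
        · rw [if_neg hg]
          have h4 : (((D g)⁻¹ : ℂˣ) : ℂ) ≠ 1 := by
            intro h
            apply hg
            rw [← inv_eq_one, ← Units.val_eq_one]; exact h
          have h5 : (((D g)⁻¹ : ℂˣ) : ℂ) ^ m = 1 := by
            rw [← Units.val_pow_eq_pow_val, inv_pow, ← MonoidHom.pow_apply, hm, pow_orderOf_eq_one]
            simp
          have h6 := geom_sum_mul (((D g)⁻¹ : ℂˣ) : ℂ) m
          rw [h5, sub_self] at h6
          rcases mul_eq_zero.mp h6 with h7 | h7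
          · rw [h7, mul_zero]
          · exact absurd (sub_eq_zero.mp h7) h4
      rw [Finset.sum_congr rfl fun g _ => h3 g, ← Finset.sum_filter, ← Finset.mul_sum]
      have : Fintype D.ker := Fintype.ofFinite _
      have h8 : ∑ g ∈ Finset.univ.filter (fun g : G => D g = 1), θ g = ∑ g : D.ker, θ g := by
        refine Finset.sum_subtype _ (fun g => ?_) θ
        rw [Finset.mem_filter, MonoidHom.mem_ker]
        simp
      rw [h8, ← finsum_eq_sum_of_fintype, ht]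
      ring
    have h3 : ((∑ j ∈ range m, c j : ℤ) : ℝ) * Fintype.card G = m * t * Nat.card D.ker := by
      have h4 : (((∑ j ∈ range m, c j : ℤ) : ℝ) * Fintype.card G : ℂ)
          = ((m * t * Nat.card D.ker : ℝ) : ℂ) := by
        push_cast
        rw [Finset.sum_mul]
        exact h2
      exact_mod_cast h4
    have h4 : (0 : ℝ) ≤ ((∑ j ∈ range m, c j : ℤ) : ℝ) * Fintype.card G := by
      rw [h3]; positivity
    have h5 : (0 : ℝ) ≤ ((∑ j ∈ range m, c j : ℤ) : ℝ) := nonneg_of_mul_nonneg_left h4 hGpos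
    exact_mod_cast h5
  -- the norm
  have hnorm : ∑ g : G, ‖θ g‖ ^ 2 ≤ 4 * Fintype.card G := by
    have h2 : ∀ g ∈ (Finset.univ : Finset G), ‖θ g‖ ^ 2 ≤ 4 := by
      intro g _
      have h3 := hθ.norm_le g
      rw [h1] at h3
      simp only [Complex.re_ofNat] at h3
      nlinarith [norm_nonneg (θ g)]
    calc _ ≤ ∑ g : G, (4 : ℝ) := Finset.sum_le_sum h2
      _ = _ := by simp [mul_comm]
  have hb := bessel_pow D hm.symm θ c (fun j _ => hc j)
  have hb0 : 0 ≤ ∑ g : G, ‖θ g - ∑ j ∈ range m, (c j : ℂ) * ((D g : ℂˣ) : ℂ) ^ j‖ ^ 2 :=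
    Finset.sum_nonneg fun g _ => by positivity
  have hsq : (∑ j ∈ range m, (c j : ℝ) ^ 2) ≤ 4 := by
    rw [hb] at hb0
    have : (∑ j ∈ range m, (c j : ℝ) ^ 2) * Fintype.card G ≤ 4 * Fintype.card G := by linarith
    exact le_of_mul_le_mul_right this hGpos
  have hsqZ : (∑ j ∈ range m, (c j) ^ 2) ≤ 4 := by exact_mod_cast hsq
  obtain ⟨k, hk⟩ : ∃ k, m = k + 2 := ⟨m - 2, by omega⟩
  have e1 : ∑ j ∈ range m, (c j) ^ 2 = n ^ 2 + n ^ 2 + ∑ j ∈ range k, (c (j + 2)) ^ 2 := by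
    rw [hk, Finset.sum_range_succ', Finset.sum_range_succ', hc0, show (0 + 1 : ℕ) = 1 from rfl, hc1]
    ring_nf
  have e2 : ∑ j ∈ range m, c j = n + n + ∑ j ∈ range k, c (j + 2) := by
    rw [hk, Finset.sum_range_succ', Finset.sum_range_succ', hc0, show (0 + 1 : ℕ) = 1 from rfl, hc1]
    ring_nf
  have e3 : ∑ j ∈ range k, c (j + 2) ≤ ∑ j ∈ range k, (c (j + 2)) ^ 2 := by
    refine Finset.sum_le_sum fun j _ => ?_
    nlinarith [Int.le_self_sq (c (j + 2))]
  have hn1 : n = -1 ∧ ∑ j ∈ range m, c j = 0 ∧ ∑ j ∈ range m, (c j) ^ 2 = 4 := by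
    have h2 : n ≤ -1 := by omega
    have h3 : -1 ≤ n := by
      by_contra h
      push Not at h
      have h4 : n ≤ -2 := by omega
      nlinarith
    have h4 : n = -1 := le_antisymm h2 h3
    subst h4
    refine ⟨rfl, ?_, ?_⟩ <;> linarith
  obtain ⟨-, hC, hS⟩ := hn1
  have hS' : (∑ j ∈ range m, (c j : ℝ) ^ 2) = 4 := by exact_mod_cast hS
  rw [hS'] at hb
  have hz : ∑ g : G, ‖θ g - ∑ j ∈ range m, (c j : ℂ) * ((D g : ℂˣ) : ℂ) ^ j‖ ^ 2 = 0 := by
    apply le_antisymm _ hb0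
    rw [hb]
    linarith
  have h5 := (Finset.sum_eq_zero_iff_of_nonneg (fun g _ => by positivity)).mp hz 1
    (Finset.mem_univ _)
  have h6 : θ 1 - ∑ j ∈ range m, (c j : ℂ) * ((D 1 : ℂˣ) : ℂ) ^ j = 0 := by
    rw [← norm_eq_zero]
    exact pow_eq_zero_iff (two_ne_zero) |>.mp h5
  rw [h1, map_one] at h6
  simp only [Units.val_one, one_pow, mul_one] at h6
  have h7 : ((∑ j ∈ range m, c j : ℤ) : ℂ) = 0 := by rw [hC]; simp
  push_cast at h7
  rw [h7] at h6
  norm_num at h6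

end Pool.Agent.R362.SH
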