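import Mathlib
import Pool.Agent.R362.SH.Det

/-!
# Degree at most two: nonnegative multiplicities for solvable subgroups suffice
-/

set_option autoImplicit false
set_option linter.unusedSectionVars false

namespace Pool.Agent.R362.SH

open Pool.Agent.H302R2 Finset

universe u

/-- the multiplicity of the trivial character is more than minus the degree -/
lemma IsSolvHeilbronn.low {G : Type u} [Group G] [Finite G] {θ : G → ℂ}
    (hθ : IsSolvHeilbronn θ) {r : ℕ} (h1 : θ 1 = r) {n : ℤ}
    (hn : ∑ᶠ g : G, θ g = n * Nat.card G) : 0 ≤ n + r ∧ (0 < r → 0 < n + r) := by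
  classical
  have : Fintype G := Fintype.ofFinite _
  rw [finsum_eq_sum_of_fintype] at hn
  have hGpos : (0 : ℝ) < Nat.card G := by exact_mod_cast Nat.card_pos
  have h2 : ∀ g : G, 0 ≤ (θ g).re + r := by
    intro g
    have h3 := hθ.norm_le g
    rw [h1, Complex.natCast_re] at h3
    have h4 := Complex.abs_re_le_norm (θ g)
    have h5 := neg_abs_le (θ g).re
    linarith
  have h3 : ∑ g : G, ((θ g).re + r) = (n + r) * Nat.card G := by
    rw [Finset.sum_add_distrib, ← Complex.re_sum, hn]
    simp
    ring
  have h4 : 0 ≤ ∑ g : G, ((θ g).re + r) := Finset.sum_nonneg fun g _ => h2 g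
  rw [h3] at h4
  have h5 : (0 : ℝ) ≤ n + r := nonneg_of_mul_nonneg_left h4 hGpos
  refine ⟨by exact_mod_cast h5, fun hr => ?_⟩
  have h6 : (θ 1).re + r ≤ ∑ g : G, ((θ g).re + r) :=
    Finset.single_le_sum (f := fun g => (θ g).re + (r : ℝ)) (fun g _ => h2 g) (Finset.mem_univ 1)
  rw [h3, h1, Complex.natCast_re] at h6
  have h7 : (0 : ℝ) < r := by exact_mod_cast hr
  have h8 : (0 : ℝ) < (n + r) * Nat.card G := by linarith
  have h9 : (0 : ℝ) < n + r := (pos_iff_pos_of_mul_pos h8).mpr hGpos
  exact_mod_cast h9

lemma two_claim : ∀ (N : ℕ) (G : Type u) [Group G] [Finite G], Nat.card G = N →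
    ∀ (θ : G → ℂ), IsSolvHeilbronn θ → θ 1 = 2 → ∀ χ : G →* ℂˣ, ∃ n : ℕ,
      ∑ᶠ g : G, θ g * (((χ g)⁻¹ : ℂˣ) : ℂ) = n * Nat.card G := by
  intro N
  induction N using Nat.strong_induction_on with
  | _ N ih =>
    intro G _ _ hN θ hθ h1 χ
    have : Fintype G := Fintype.ofFinite _
    have hθ' := hθ.twist χ
    set θ' : G → ℂ := fun g => θ g * (((χ g)⁻¹ : ℂˣ) : ℂ) with hθ'def
    have h1' : θ' 1 = 2 := by simp [hθ'def, h1]
    obtain ⟨n, hn⟩ := hθ'.int_hom (MonoidHom.id G) 1
    have hn' : ∑ᶠ g : G, θ' g = n * Nat.card G := by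
      rw [finsum_eq_sum_of_fintype, ← hn]
      refine Finset.sum_congr rfl fun g _ => ?_
      simp
    have hn0 : 0 ≤ n := by
      obtain ⟨D, hD⟩ := hθ'.exists_det h1'
      by_cases hD1 : D = 1
      · have hd : ∀ g, dd θ' g = 1 := by
          intro g
          rw [← hD g, hD1]
          simp
        have hev := hθ'.parity h1' hd hn'
        have hlow := (hθ'.low (r := 2) (by rw [h1']; norm_num) hn').2 (by norm_num)
        obtain ⟨k, hk⟩ := hev
        push_cast at hlow
        omega
      · refine hθ'.nonneg_of_det h1' D hD hD1 ?_ hn'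
        have hlt : Nat.card D.ker < N := by
          rw [← hN]
          refine lt_of_le_of_ne (Subgroup.card_le_card_group _) ?_
          intro h
          apply hD1
          have h2 := Subgroup.eq_top_of_card_eq _ h
          ext g
          have h3 : g ∈ D.ker := by rw [h2]; exact Subgroup.mem_top g
          rw [MonoidHom.mem_ker.mp h3]
          simp
        obtain ⟨t, ht⟩ := ih _ hlt D.ker rfl (fun g => θ' g) (hθ'.comp D.ker.subtype) h1' 1
        refine ⟨t, ?_⟩
        rw [← ht]
        refine finsum_congr fun g => ?_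
        simp
    obtain ⟨k, rfl⟩ := Int.eq_ofNat_of_zero_le hn0
    exact ⟨k, by rw [hn']; simp⟩

/-- **Degree at most two**: nonnegative multiplicities for all solvable subgroups imply
nonnegative multiplicities for all subgroups. -/
theorem IsSolvHeilbronn.isHeilbronn {G : Type u} [Group G] [Finite G] {θ : G → ℂ}
    (hθ : IsSolvHeilbronn θ) {r : ℕ} (h1 : θ 1 = r) (hr : r ≤ 2) : IsHeilbronn θ where
  conj := hθ.conj
  mult H χ := by
    have hH := hθ.comp H.subtype
    by_cases h2 : r = 2
    · subst h2
      exact two_claim _ H rfl (fun h => θ h) hH (by simpa using h1) χ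
    · have hH' := hH.twist χ
      obtain ⟨n, hn⟩ := hθ.int H χ
      have h3 := hH'.low (r := r) (by simpa using h1) hn
      have hn0 : 0 ≤ n := by
        interval_cases r
        · have := h3.1
          push_cast at this
          omega
        · have := h3.2 (by norm_num)
          push_cast at this
          omega
        · exact absurd rfl h2
      obtain ⟨k, rfl⟩ := Int.eq_ofNat_of_zero_le hn0
      exact ⟨k, by rw [hn]; simp⟩

end Pool.Agent.R362.SH
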