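import Mathlib
import Pool.Agent.R362.SH.Main
import Pool.Agent.H302R5.Push
import Pool.Agent.TH820.KerArt

/-!
# The relative version: small degree after averaging over a solvable normal subgroup
-/

set_option autoImplicit false
set_option linter.unusedSectionVars false

namespace Pool.Agent.R362.SH

open Pool.Agent.H302R2 Pool.Agent.H302R3 Pool.Agent.H302R5 Finset

universe u

/-- integrality holds automatically -/
lemma of_sol {G : Type u} [Group G] [Finite G] {θ : G → ℂ} (hθ : IsSolHeilbronn θ) :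
    IsSolvHeilbronn θ where
  conj := hθ.conj
  int H χ := (hθ.comp H.subtype).int_mult χ
  mult := hθ.mult

lemma IsSolvHeilbronn.toSol {G : Type u} [Group G] [Finite G] {θ : G → ℂ}
    (hθ : IsSolvHeilbronn θ) : IsSolHeilbronn θ where
  conj := hθ.conj
  mult := hθ.mult

/-- The multiplicity of a linear character `ψ` of `H` is nonnegative if, for a normal solvable
subgroup `N` of `H`, the multiplicity of `ψ` restricted to `N` is at most two. -/
theorem nonneg_of_normal {H : Type u} [Group H] [Finite H] {θ : H → ℂ}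
    (hθ : IsSolvHeilbronn θ) (ψ : H →* ℂˣ) (N : Subgroup H) [N.Normal]
    (hN : Group.IsSolvable N) {r : ℕ} (hr : r ≤ 2)
    (h : ∑ᶠ x : N, θ x * (((ψ x)⁻¹ : ℂˣ) : ℂ) = r * Nat.card N) :
    ∃ n : ℕ, ∑ᶠ x : H, θ x * (((ψ x)⁻¹ : ℂˣ) : ℂ) = n * Nat.card H := by
  classical
  have : Fintype H := Fintype.ofFinite _
  have hθ' := hθ.twist ψ
  set θ' : H → ℂ := fun g => θ g * (((ψ g)⁻¹ : ℂˣ) : ℂ) with hθ'def
  have hπ : Function.Surjective (QuotientGroup.mk' N) := QuotientGroup.mk'_surjective N
  have hker : (QuotientGroup.mk' N).ker = N := QuotientGroup.ker_mk' N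
  -- the average
  have hp : IsSolHeilbronn (push (QuotientGroup.mk' N) θ') := by
    refine push_isSol hπ hθ'.conj ?_
    intro V hV χ
    have hsol : Group.IsSolvable (V.comap (QuotientGroup.mk' N)) := by
      let ρ : V.comap (QuotientGroup.mk' N) →* V :=
        { toFun := fun u => ⟨QuotientGroup.mk' N u, u.2⟩
          map_one' := Subtype.ext (map_one _)
          map_mul' := fun a b => Subtype.ext (map_mul _ _ _) }
      have hNle : N ≤ V.comap (QuotientGroup.mk' N) := by
        intro x hx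
        rw [Subgroup.mem_comap]
        have : QuotientGroup.mk' N x = 1 := by
          rw [← MonoidHom.mem_ker, hker]; exact hx
        rw [this]
        exact one_mem V
      refine Group.isSolvable_of_ker_le_range (Subgroup.inclusion hNle) ρ ?_
      intro x hx
      have h1 : QuotientGroup.mk' N (x : H) = 1 := congrArg Subtype.val hx
      rw [← MonoidHom.mem_ker, hker] at h1
      exact ⟨⟨x, h1⟩, rfl⟩
    have hfin : Fintype (V.comap (QuotientGroup.mk' N)) := Fintype.ofFinite _
    let χ' : V.comap (QuotientGroup.mk' N) →* ℂˣ :=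
      χ.comp
        { toFun := fun u => ⟨QuotientGroup.mk' N u, u.2⟩
          map_one' := Subtype.ext (map_one _)
          map_mul' := fun a b => Subtype.ext (map_mul _ _ _) }
    exact hθ'.mult _ hsol χ'
  have hdeg : push (QuotientGroup.mk' N) θ' 1 = r := by
    unfold push
    have h2 : ∑ g : H, (if QuotientGroup.mk' N g = 1 then θ' g else 0)
        = ∑ᶠ x : N, θ' x := by
      have : Fintype N := Fintype.ofFinite _
      rw [finsum_eq_sum_of_fintype, ← Finset.sum_filter]
      refine Finset.sum_subtype _ (fun g => ?_) θ'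
      rw [Finset.mem_filter, ← MonoidHom.mem_ker, hker]
      simp
    have hk : (Nat.card N : ℂ) ≠ 0 := by exact_mod_cast Nat.card_pos.ne'
    have h2' : (Nat.card (QuotientGroup.mk' N).ker : ℂ)⁻¹ * _ = (Nat.card N : ℂ)⁻¹ * _ :=
      congrArg₂ (fun a b : ℂ => a⁻¹ * b) (by rw [hker]) h2
    refine Eq.trans ?_ (h2'.trans ?_)
    · congr 1
      refine Finset.sum_congr rfl fun g _ => ?_
      split_ifs <;> rfl
    · change (Nat.card N : ℂ)⁻¹ * ∑ᶠ x : N, θ x * (((ψ x)⁻¹ : ℂˣ) : ℂ) = r
      rw [h]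
      field_simp
  have hh := (of_sol hp).isHeilbronn hdeg hr
  have : Fintype (H ⧸ N) := Fintype.ofFinite _
  obtain ⟨n, hn⟩ := hh.mult_hom (MonoidHom.id _) 1
  refine ⟨n, ?_⟩
  have h3 := sum_push_all (QuotientGroup.mk' N) θ'
  rw [finsum_eq_sum_of_fintype] at h3
  have h4 : ∑ y : H ⧸ N, push (QuotientGroup.mk' N) θ' y = n * Nat.card (H ⧸ N) := by
    rw [← hn]
    refine Finset.sum_congr rfl fun y _ => ?_
    simp
  rw [h4, hker] at h3
  have hk : (Nat.card N : ℂ) ≠ 0 := by exact_mod_cast Nat.card_pos.ne'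
  have h5 : (Nat.card H : ℂ) = Nat.card (H ⧸ N) * Nat.card N := by
    exact_mod_cast Subgroup.card_eq_card_quotient_mul_card_subgroup N
  rw [finsum_eq_sum_of_fintype, h5]
  change ∑ g : H, θ' g = _
  field_simp at h3
  rw [← h3]
  ring

end Pool.Agent.R362.SH

namespace Pool.Agent.R362.SH

open Pool.Agent.H302R2 Pool.Agent.H541R3.ART

/-- values of irreducible characters at inverses -/
lemma irr_inv {G : Type} [Group G] [Finite G] {χ : G → ℂ} (hχ : χ ∈ Irr G) (g : G) :
    χ g⁻¹ = (starRingEnd ℂ) (χ g) := by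
  have h0 := (Pool.Agent.W446.AS.irr_heilbronn hχ).comp (Subgroup.zpowers g).subtype
  obtain ⟨ι, _, ψ, n, h⟩ := h0.comm_decomp (zpowers_comm g)
  have h1 := h ⟨g, Subgroup.mem_zpowers g⟩
  have h2 := h ⟨g, Subgroup.mem_zpowers g⟩⁻¹
  simp only [Subgroup.coe_subtype, Subgroup.coe_inv] at h1 h2
  rw [h1, h2, map_sum]
  refine Finset.sum_congr rfl fun i _ => ?_
  have h3 := norm_char (ψ i) ⟨g, Subgroup.mem_zpowers g⟩
  rw [map_inv, map_mul, map_natCast, Units.val_inv_eq_inv_val, Complex.inv_eq_conj h3]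

end Pool.Agent.R362.SH
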